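import Pool.Agent.H180.PG.Stm

/-! Project PG, job Big. -/

set_option autoImplicit false

open Set Topology Filter

namespace Pool.Agent.Q142.PG

open Pool.Agent.H180.PG

section

variable {Γ : Type} [SemilatticeInf Γ] [WellFoundedLT Γ]

theorem exists_least {D : Set Γ} (hD : InfClosed D) {t d : Γ} (hd : d ∈ D) (htd : t ≤ d) :
    ∃ e ∈ D, t ≤ e ∧ ∀ d' ∈ D, t ≤ d' → e ≤ d' := by
  have hne : {x | x ∈ D ∧ t ≤ x}.Nonempty := ⟨d, hd, htd⟩
  have hwf := wellFounded_lt (α := Γ)
  have hm := hwf.min_mem {x | x ∈ D ∧ t ≤ x} hne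
  refine ⟨hwf.min {x | x ∈ D ∧ t ≤ x} hne, hm.1, hm.2, fun d' hd' htd' => ?_⟩
  have h1 : hwf.min {x | x ∈ D ∧ t ≤ x} hne ⊓ d' ∈ {x | x ∈ D ∧ t ≤ x} :=
    ⟨hD hm.1 hd', le_inf hm.2 htd'⟩
  have h2 := hwf.not_lt_min {x | x ∈ D ∧ t ≤ x} h1
  have h3 : hwf.min {x | x ∈ D ∧ t ≤ x} hne ⊓ d' ≤ hwf.min {x | x ∈ D ∧ t ≤ x} hne := inf_le_left
  have h4 := eq_of_le_of_not_lt h3 h2
  exact inf_eq_left.mp h4

theorem det_mono {D' D : Set Γ} (hDD : D' ⊆ D) (h' : InfClosed D') {φ : Γ → ℝ}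
    (h : Det D' φ) : Det D φ := by
  refine ⟨fun t d hd htd hleast => ?_, fun t ht => h.2 t fun d hd => ht d (hDD hd)⟩
  by_cases hex : ∃ e ∈ D', t ≤ e
  · obtain ⟨e, he, hte⟩ := hex
    obtain ⟨m, hm, htm, hml⟩ := exists_least h' he hte
    have hdm : d ≤ m := hleast m (hDD hm) htm
    rw [h.1 t m hm htm hml, h.1 d m hm hdm fun d' hd' hdd' => hml d' hd' (htd.trans hdd')]
  · push Not at hex
    rw [h.2 t hex, h.2 d fun e he hde => hex e he (htd.trans hde)]

omit [WellFoundedLT Γ] in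
theorem countable_infClosure {S : Set Γ} (hS : S.Countable) :
    ((infClosure S : Set Γ)).Countable := by
  classical
  have h1 : {F : Finset Γ | (F : Set Γ) ⊆ S}.Countable := by
    have h2 := Set.countable_ofPred_finite_subset hS
    refine (h2.preimage (f := fun F : Finset Γ => (F : Set Γ))
      (Finset.coe_injective)).mono ?_
    intro F hF
    exact ⟨F.finite_toSet, hF⟩
  have h3 : (infClosure S : Set Γ) ⊆ ⋃ F ∈ {F : Finset Γ | (F : Set Γ) ⊆ S},
      {a | ∃ h : F.Nonempty, F.inf' h id = a} := by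
    rintro a ⟨F, hF, hFS, rfl⟩
    simp only [mem_iUnion]
    exact ⟨F, hFS, hF, rfl⟩
  refine (Set.Countable.biUnion h1 fun F _ => ?_).mono h3
  refine Set.Subsingleton.countable ?_
  rintro a ⟨h, rfl⟩ b ⟨h', rfl⟩
  rfl

theorem common (C : Set (StrongDual ℝ (L1 Γ))) (hC : C ⊆ Big Γ) (hcount : C.Countable) :
    ∃ D : Set Γ, D.Countable ∧ InfClosed D ∧ ∀ f ∈ C, Det D (co f) := by
  classical
  have hC' : ∀ f : StrongDual ℝ (L1 Γ), f ∈ C → ∃ D : Set Γ, D.Countable ∧ InfClosed D ∧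
      Det D (co f) := fun f hf => hC hf
  choose! Df h1 h2 h3 using hC'
  refine ⟨infClosure (⋃ f ∈ C, Df f), countable_infClosure
    (Set.Countable.biUnion hcount fun f hf => h1 f hf), infClosed_infClosure, fun f hf => ?_⟩
  exact det_mono ((subset_biUnion_of_mem (u := Df) hf).trans subset_infClosure) (h2 f hf) (h3 f hf)

end

theorem big : S_Big := by
  classical
  intro Γ _ _
  refine ⟨⟨{ carrier := Big Γ, zero_mem' := ?_, add_mem' := ?_, smul_mem' := ?_ }, rfl⟩, ?_, ?_⟩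
  · intro f g hf hg
    obtain ⟨D, hD1, hD2, hD3⟩ := common {f, g} (by
      rintro x (rfl | rfl)
      · exact hf
      · exact hg) (by simp)
    have hf' := hD3 f (by simp)
    have hg' := hD3 g (by simp)
    refine ⟨D, hD1, hD2, fun t d hd htd hl => ?_, fun t ht => ?_⟩
    · have a := hf'.1 t d hd htd hl
      have b := hg'.1 t d hd htd hl
      show co f t + co g t = co f d + co g d
      rw [a, b]
    · have a := hf'.2 t ht
      have b := hg'.2 t ht
      show co f t + co g t = 0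
      rw [a, b, add_zero]
  · exact ⟨∅, countable_empty, infClosed_empty, fun t d hd => absurd hd (notMem_empty d),
      fun t _ => rfl⟩
  · rintro c f ⟨D, hD1, hD2, hD3⟩
    refine ⟨D, hD1, hD2, fun t d hd htd hl => ?_, fun t ht => ?_⟩
    · show c * co f t = c * co f d
      rw [hD3.1 t d hd htd hl]
    · show c * co f t = 0
      rw [hD3.2 t ht, mul_zero]
  · rintro t f ⟨h1, h2⟩
    refine ⟨{t}, countable_singleton t, infClosed_singleton, fun s d hd hsd _ => ?_, fun s hs => ?_⟩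
    · rw [mem_singleton_iff] at hd
      subst hd
      rw [h1 s hsd, h1 d le_rfl]
    · exact h2 s (hs t rfl)
  · intro C hC hcount g hg
    obtain ⟨D, hD1, hD2, hD3⟩ := common C hC hcount
    have hev : ∀ x : L1 Γ, Continuous fun w : WeakDual ℝ (L1 Γ) => w x :=
      fun x => WeakDual.eval_continuous x
    refine ⟨D, hD1, hD2, fun t d hd htd hl => ?_, fun t ht => ?_⟩
    · have hcl : IsClosed {w : WeakDual ℝ (L1 Γ) | w (e t) = w (e d)} :=
        isClosed_eq (hev _) (hev _)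
      have hsub : StrongDual.toWeakDual '' C ⊆ {w : WeakDual ℝ (L1 Γ) | w (e t) = w (e d)} := by
        rintro _ ⟨f, hf, rfl⟩
        exact (hD3 f hf).1 t d hd htd hl
      exact closure_minimal hsub hcl hg
    · have hcl : IsClosed {w : WeakDual ℝ (L1 Γ) | w (e t) = 0} :=
        isClosed_eq (hev _) continuous_const
      have hsub : StrongDual.toWeakDual '' C ⊆ {w : WeakDual ℝ (L1 Γ) | w (e t) = 0} := by
        rintro _ ⟨f, hf, rfl⟩
        exact (hD3 f hf).2 t ht
      exact closure_minimal hsub hcl hg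

end Pool.Agent.Q142.PG
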