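import Pool.Agent.H180.PG.Stm

/-! Project PG, job Lim. -/

set_option autoImplicit false

open Set Topology Filter

namespace Pool.Agent.Q142.PG

open Pool.Agent.H180.PG

theorem lim : S_Lim := by
  classical
  intro hL Γ _ A hA
  obtain ⟨-, -, hc, -⟩ := hL Γ
  have hchi : ∀ b : Γ, ∃ f : StrongDual ℝ (L1 Γ), ‖f‖ ≤ 1 ∧
      ∀ γ, co f γ = if γ ≤ b then 1 else 0 := by
    intro b
    refine hc (fun γ => if γ ≤ b then 1 else 0) 1 zero_le_one ?_
    intro γ
    by_cases hγ : γ ≤ b <;> simp [hγ]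
  choose F hF1 hF2 using hchi
  let u : ℕ ↪ A := hA.natEmbedding
  let w : ℕ → WeakDual ℝ (L1 Γ) := fun n => StrongDual.toWeakDual (F (u n))
  have hcomp : IsCompact (WeakDual.toStrongDual ⁻¹'
      Metric.closedBall (0 : StrongDual ℝ (L1 Γ)) 1) := WeakDual.isCompact_closedBall 0 1
  obtain ⟨g', -, hg'⟩ := hcomp.ultrafilter_le_nhds' ((hyperfilter ℕ).map w) (by
    rw [Ultrafilter.mem_map]
    refine Filter.univ_mem' fun n => ?_
    show WeakDual.toStrongDual (w n) ∈ Metric.closedBall (0 : StrongDual ℝ (L1 Γ)) 1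
    rw [mem_closedBall_zero_iff]
    exact hF1 (u n))
  have hten : Tendsto w (hyperfilter ℕ : Filter ℕ) (𝓝 g') := hg'
  have hcoord : ∀ γ : Γ, Tendsto (fun n => co (F (u n)) γ) (hyperfilter ℕ : Filter ℕ)
      (𝓝 (g' (e γ))) := fun γ =>
    ((WeakDual.eval_continuous (𝕜 := ℝ) (e γ : L1 Γ)).tendsto g').comp hten
  refine ⟨WeakDual.toStrongDual g', ?_, ?_⟩
  · show StrongDual.toWeakDual (WeakDual.toStrongDual g') ∈ _
    rw [WeakDual.toWeakDual_toStrongDual]
    refine mem_closure_of_tendsto hten (Filter.Eventually.of_forall fun n => ?_)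
    refine ⟨F (u n), ⟨u n, (u n).2, fun γ hγ => ?_, fun γ hγ => ?_⟩, rfl⟩
    · rw [hF2, if_pos hγ]
    · rw [hF2, if_neg hγ]
  · intro γ
    have hev : ∀ (P : Γ → Prop), {b ∈ A | P b}.Finite →
        ∀ᶠ n in (hyperfilter ℕ : Filter ℕ), ¬ P (u n) := by
      intro P hP
      have h1 : {n : ℕ | P (u n)}.Finite := by
        refine Set.Finite.of_finite_image (f := fun n => ((u n : A) : Γ)) (hP.subset ?_) ?_
        · rintro _ ⟨n, hn, rfl⟩
          exact ⟨(u n).2, hn⟩
        · intro a _ b _ hab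
          exact u.injective (Subtype.ext hab)
      have h2 : {n : ℕ | P (u n)}ᶜ ∈ (hyperfilter ℕ : Filter ℕ) :=
        Filter.compl_mem_hyperfilter_of_finite h1
      exact h2
    refine ⟨fun hfin => ?_, fun hfin => ?_⟩
    · have h3 : Tendsto (fun n => co (F (u n)) γ) (hyperfilter ℕ : Filter ℕ) (𝓝 0) := by
        refine tendsto_const_nhds.congr' ?_
        filter_upwards [hev (fun b => γ ≤ b) hfin] with n hn
        rw [hF2, if_neg hn]
      exact tendsto_nhds_unique (hcoord γ) h3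
    · have h3 : Tendsto (fun n => co (F (u n)) γ) (hyperfilter ℕ : Filter ℕ) (𝓝 1) := by
        refine tendsto_const_nhds.congr' ?_
        filter_upwards [hev (fun b => ¬ γ ≤ b) hfin] with n hn
        rw [hF2, if_pos (not_not.mp hn)]
      exact tendsto_nhds_unique (hcoord γ) h3

end Pool.Agent.Q142.PG
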